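import Pool.Agent.MP_87daae_co.Base

open Function Real Module
open scoped Topology
open Pool.Agent.MP_87daae_co

/-- For every `d ≥ 3` and `0 < ε < π/2` there is `m₀` such that for all `m ≥ m₀` every set of at
most `N_d(m) = d m - C(d+1,2) - 1` angles in `[ε, π - ε]` is realisable with exactly `m` points in
`ℝ^d`. -/
theorem Pool.Agent.Results.MP_87daae_co.AnglesExactCount.result :
    ∀ d : ℕ, 3 ≤ d → ∀ ε : ℝ, 0 < ε → ε < π / 2 → ∃ m₀ : ℕ, ∀ m : ℕ, m₀ ≤ m →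
      ∀ Θ : Finset ℝ, (∀ θ ∈ Θ, ε ≤ θ ∧ θ ≤ π - ε) →
        Θ.card + (d + 1).choose 2 + 1 ≤ d * m →
        ∃ P : Finset (EuclideanSpace ℝ (Fin d)), P.card = m ∧
          ∀ θ ∈ Θ, ∃ A ∈ P, ∃ B ∈ P, ∃ C ∈ P, A ≠ B ∧ B ≠ C ∧ A ≠ C ∧
            EuclideanGeometry.angle A B C = θ := by
  classical
  intro d hd ε hε hε2
  -- base data for every angle
  have hex : ∀ θ : ℝ, ∃ δ > 0, ∃ n k : ℕ, θ ∈ Set.Icc ε (π - ε) →
      d * k ≤ n + ((d + 1).choose 2 + 1) ∧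
      ∀ y : Fin n → ℝ, (∀ i, |y i - θ| < δ) → ∃ X : Finset (EE d), X.card = k ∧
        (∀ i, ∃ A ∈ X, ∃ B ∈ X, ∃ C ∈ X, A ≠ B ∧ B ≠ C ∧ A ≠ C ∧
          EuclideanGeometry.angle A B C = y i) ∧
        (∀ β : Fin d → ℝ, (∀ i, ε ≤ β i ∧ β i ≤ π - ε) → ∃ P : EE d, ∀ i,
          ∃ a ∈ X, ∃ b ∈ X, P ≠ a ∧ P ≠ b ∧ a ≠ b ∧ EuclideanGeometry.angle P a b = β i) := by
    intro θ
    by_cases hθ : θ ∈ Set.Icc ε (π - ε)
    · obtain ⟨δ, hδ, n, k, h⟩ := local_base hd ε hε θ (by linarith [hθ.1]) (by linarith [hθ.2])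
      exact ⟨δ, hδ, n, k, fun _ => h⟩
    · exact ⟨1, one_pos, 0, 0, fun h => absurd h hθ⟩
  choose δ hδ n k hbase using hex
  obtain ⟨t, ht, hcov⟩ := (isCompact_Icc (a := ε) (b := π - ε)).elim_nhds_subcover
    (fun θ => Metric.ball θ (δ θ)) (fun θ _ => Metric.ball_mem_nhds θ (hδ θ))
  have htne : t.Nonempty := by
    have : ε ∈ Set.Icc ε (π - ε) := ⟨le_refl _, by linarith⟩
    have := hcov this
    simp only [Set.mem_iUnion] at this
    obtain ⟨θ, hθ, _⟩ := this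
    exact ⟨θ, hθ⟩
  set nmax := t.sup n with hnmax
  set kmax := t.sup k with hkmax
  refine ⟨t.card * nmax + kmax + (d + 1).choose 2 + 1, ?_⟩
  intro m hm Θ hΘ hcard
  -- enlarge `Θ`
  set q := (d + 1).choose 2 + 1 with hq
  have hdm : t.card * nmax + q ≤ d * m := by
    calc t.card * nmax + q ≤ m := by omega
      _ ≤ d * m := Nat.le_mul_of_pos_left m (by omega)
  obtain ⟨Θ', hsub, hΘ', hcard'⟩ : ∃ Θ' : Finset ℝ, Θ ⊆ Θ' ∧
      (∀ θ ∈ Θ', ε ≤ θ ∧ θ ≤ π - ε) ∧ Θ'.card = d * m - q := by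
    have hinf : (Set.Icc ε (π - ε) \ (Θ : Set ℝ)).Infinite :=
      (Set.Icc_infinite (by linarith)).sdiff Θ.finite_toSet
    obtain ⟨S, hS, hSc⟩ := hinf.exists_subset_card_eq (d * m - q - Θ.card)
    refine ⟨Θ ∪ S, Finset.subset_union_left, ?_, ?_⟩
    · intro θ hθ
      rcases Finset.mem_union.mp hθ with h | h
      · exact hΘ θ h
      · exact (hS h).1
    · rw [Finset.card_union_of_disjoint, hSc]
      · omega
      · rw [Finset.disjoint_left]
        intro θ h1 h2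
        exact (hS h2).2 h1
  -- pigeonhole
  have hchoice : ∀ θ : ℝ, ∃ c : ℝ, θ ∈ Θ' → c ∈ t ∧ |θ - c| < δ c := by
    intro θ
    by_cases h : θ ∈ Θ'
    · have := hcov (hΘ' θ h)
      simp only [Set.mem_iUnion] at this
      obtain ⟨c, hc, hb⟩ := this
      refine ⟨c, fun _ => ⟨hc, ?_⟩⟩
      rwa [Metric.mem_ball, Real.dist_eq] at hb
    · exact ⟨0, fun h' => absurd h' h⟩
  choose f hf using hchoice
  obtain ⟨c, hct, hc⟩ := Finset.exists_le_card_fiber_of_mul_le_card_of_maps_to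
    (s := Θ') (t := t) (f := f) (n := nmax) (fun a ha => (hf a ha).1) htne (by omega)
  have hnc : n c ≤ nmax := Finset.le_sup (f := n) hct
  have hkc : k c ≤ kmax := Finset.le_sup (f := k) hct
  obtain ⟨Θ₁, hΘ₁, hΘ₁c⟩ := Finset.exists_subset_card_eq (hnc.trans hc)
  obtain ⟨hcount, hX⟩ := hbase c (ht c hct)
  let e₁ := Θ₁.equivFinOfCardEq hΘ₁c
  obtain ⟨X, hXc, hX1, hX2⟩ := hX (fun i => ((e₁.symm i : Θ₁) : ℝ)) (by
    intro i
    have hmem := hΘ₁ (e₁.symm i).2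
    rw [Finset.mem_filter] at hmem
    have := (hf _ hmem.1).2
    rw [hmem.2] at this
    exact this)
  -- remaining angles
  set Θ₂ := Θ' \ Θ₁ with hΘ₂
  have hkm : k c ≤ m := by omega
  have hsub1 : Θ₁ ⊆ Θ' := hΘ₁.trans (Finset.filter_subset _ _)
  have hcard2 : Θ₂.card ≤ d * (m - k c) := by
    rw [hΘ₂, Finset.card_sdiff_of_subset hsub1, hcard', hΘ₁c, Nat.mul_sub]
    omega
  let e₂ := Θ₂.equivFin
  let g : ℕ → ℝ := fun j => if h : j < Θ₂.card then ((e₂.symm ⟨j, h⟩ : Θ₂) : ℝ) else ε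
  have hg : ∀ j, ε ≤ g j ∧ g j ≤ π - ε := by
    intro j
    by_cases h : j < Θ₂.card
    · have e : g j = ((e₂.symm ⟨j, h⟩ : Θ₂) : ℝ) := dif_pos h
      rw [e]
      have := (e₂.symm ⟨j, h⟩).2
      exact hΘ' _ (Finset.mem_sdiff.mp this).1
    · have e : g j = ε := dif_neg h
      rw [e]; exact ⟨le_refl _, by linarith⟩
  have hPex : ∀ r : ℕ, ∃ P : EE d, ∀ i : Fin d, ∃ a ∈ X, ∃ b ∈ X, P ≠ a ∧ P ≠ b ∧ a ≠ b ∧
      EuclideanGeometry.angle P a b = g (d * r + i) := fun r =>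
    hX2 (fun i => g (d * r + i)) (fun i => hg _)
  choose P hP using hPex
  have hinfE : Infinite (EE d) := by
    apply Infinite.of_injective (fun r : ℝ => EuclideanSpace.single (⟨0, by omega⟩ : Fin d) r)
    intro r s h
    have := congrArg (fun w : EuclideanSpace ℝ (Fin d) => w ⟨0, by omega⟩) h
    simpa using this
  obtain ⟨F, hF, hFc⟩ := Infinite.exists_superset_card_eq
    (X ∪ (Finset.range (m - k c)).image P) m (by
      calc (X ∪ (Finset.range (m - k c)).image P).card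
          ≤ X.card + ((Finset.range (m - k c)).image P).card := Finset.card_union_le _ _
        _ ≤ k c + (m - k c) := by
            rw [hXc]
            have := Finset.card_image_le (s := Finset.range (m - k c)) (f := P)
            rw [Finset.card_range] at this
            omega
        _ = m := by omega)
  have hXF : ∀ z ∈ X, z ∈ F := fun z hz => hF (Finset.mem_union_left _ hz)
  refine ⟨F, hFc, ?_⟩
  intro θ hθ
  have hθ' := hsub hθ
  by_cases h1 : θ ∈ Θ₁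
  · obtain ⟨A, hA, B, hB, C, hC, h2, h3, h4, h5⟩ := hX1 (e₁ ⟨θ, h1⟩)
    refine ⟨A, hXF A hA, B, hXF B hB, C, hXF C hC, h2, h3, h4, ?_⟩
    rw [h5]; simp
  · have h2 : θ ∈ Θ₂ := Finset.mem_sdiff.mpr ⟨hθ', h1⟩
    set j : Fin Θ₂.card := e₂ ⟨θ, h2⟩ with hj
    have hgj : g j = θ := by
      have e : g j = ((e₂.symm ⟨j, j.2⟩ : Θ₂) : ℝ) := dif_pos j.2
      rw [e, hj]; simp
    have hd0 : 0 < d := by omega
    have hr : (j : ℕ) / d < m - k c := by
      rw [Nat.div_lt_iff_lt_mul hd0, mul_comm]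
      exact j.2.trans_le hcard2
    obtain ⟨a, ha, b, hb, h3, h4, h5, h6⟩ := hP ((j : ℕ) / d) ⟨(j : ℕ) % d, Nat.mod_lt _ hd0⟩
    have e3 : d * ((j : ℕ) / d) + (j : ℕ) % d = j := Nat.div_add_mod _ _
    simp only [e3, hgj] at h6
    refine ⟨P ((j : ℕ) / d), hF (Finset.mem_union_right _ (Finset.mem_image_of_mem _
      (Finset.mem_range.mpr hr))), a, hXF a ha, b, hXF b hb, h3, h5, h4, h6⟩
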